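import Pool.Agent.helper36.BP.SpecE

/-! # Row bp:CHT (MP_ad8ced_nt) -/

set_option autoImplicit false

open Finset Pool.Agent.FI Pool.Agent.CH

noncomputable section

namespace Pool.Agent.BP

theorem CHT_big (C : ℝ) (hC : 0 < C) (k : ℕ) : ∃ v₀ : ℝ, 1 ≤ v₀ ∧ ∀ v : ℝ, v₀ ≤ v →
    C * Real.log v ^ k * (3 + Real.log v) ≤ v ^ (1 / 4 : ℝ) := by
  have h1 := isLittleO_log_rpow_rpow_atTop ((k + 1 : ℕ) : ℝ) (show (0 : ℝ) < 1 / 4 by norm_num)
  have h2 := h1.bound (show (0 : ℝ) < 1 / (2 * C) by positivity)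
  obtain ⟨a, ha⟩ := Filter.eventually_atTop.1 h2
  refine ⟨max (max a 1) (Real.exp 3), (le_max_right a 1).trans (le_max_left _ _), ?_⟩
  intro v hv
  have hva : a ≤ v := ((le_max_left _ _).trans (le_max_left _ _)).trans hv
  have hv1 : 1 ≤ v := ((le_max_right _ _).trans (le_max_left _ _)).trans hv
  have hv3 : Real.exp 3 ≤ v := (le_max_right _ _).trans hv
  have hv0 : 0 < v := by linarith
  have hl3 : 3 ≤ Real.log v := (Real.le_log_iff_exp_le hv0).2 hv3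
  have h3 := ha v hva
  rw [Real.rpow_natCast, Real.norm_of_nonneg (by positivity), Real.norm_of_nonneg (by positivity)] at h3
  have h4 : 2 * C * Real.log v ^ (k + 1) ≤ v ^ (1 / 4 : ℝ) := by
    calc 2 * C * Real.log v ^ (k + 1) ≤ 2 * C * (1 / (2 * C) * v ^ (1 / 4 : ℝ)) :=
          mul_le_mul_of_nonneg_left h3 (by positivity)
      _ = v ^ (1 / 4 : ℝ) := by field_simp
  refine le_trans ?_ h4
  calc C * Real.log v ^ k * (3 + Real.log v) ≤ C * Real.log v ^ k * (2 * Real.log v) :=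
        mul_le_mul_of_nonneg_left (by linarith) (by positivity)
    _ = 2 * C * Real.log v ^ (k + 1) := by ring

theorem CHT (hCHB : CHB_stmt) (hSMA : SMA_stmt) (hSMB : SMB_stmt) : CHT_stmt := by
  intro A B K
  obtain ⟨x₁, hx₁⟩ := hCHB A B K
  obtain ⟨C₁, hC₁, h₁⟩ := hSMA
  obtain ⟨C₂, hC₂, h₂⟩ := hSMB
  obtain ⟨v₀, hv₀, hbig⟩ := CHT_big (C₁ + C₂) (by positivity) (6 * B + 2 * A)
  have ht : Filter.Tendsto CH.dl Filter.atTop Filter.atTop :=
    (tendsto_rpow_atTop (show (0 : ℝ) < 19 / 20 by norm_num)).comp Real.tendsto_log_atTop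
  obtain ⟨x₂, hx₂⟩ := Filter.eventually_atTop.1 (ht.eventually_ge_atTop (Real.log v₀))
  refine ⟨max (max x₁ x₂) (Real.exp 1), ?_⟩
  intro x hx d hd hdB ψ hψ j i hj hi κ τ hU hκ0 hκ hτ v hv
  have hxx₁ : x₁ ≤ x := ((le_max_left _ _).trans (le_max_left _ _)).trans hx
  have hxx₂ : x₂ ≤ x := ((le_max_right _ _).trans (le_max_left _ _)).trans hx
  have hxe : Real.exp 1 ≤ x := (le_max_right _ _).trans hx
  by_cases hcase : (v : ℝ) ^ (1 / 4 : ℝ) ≤ max |κ + τ| |τ - κ|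
  · exact hx₁ x hxx₁ d hd hdB ψ hψ j i hj hi κ τ hκ hτ v hv hcase
  · have hx0 : 0 < x := lt_of_lt_of_le (Real.exp_pos 1) hxe
    have hL1 : 1 ≤ Real.log x := (Real.le_log_iff_exp_le hx0).2 hxe
    have hvpos : (0 : ℝ) < v := lt_of_lt_of_le (Real.exp_pos _) hv
    have hvv₀ : v₀ ≤ v := by
      calc v₀ = Real.exp (Real.log v₀) := (Real.exp_log (by linarith)).symm
        _ ≤ Real.exp (CH.dl x) := Real.exp_le_exp.2 (hx₂ x hxx₂)
        _ ≤ v := hv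
    have hv1 : (1 : ℝ) ≤ v := hv₀.trans hvv₀
    have hdl : CH.dl x ≤ Real.log v := (Real.le_log_iff_exp_le hvpos).2 hv
    have hdl1 : 1 ≤ CH.dl x := Real.one_le_rpow hL1 (by norm_num)
    have hlv1 : 1 ≤ Real.log v := hdl1.trans hdl
    have hLdl : Real.log x ≤ Real.log v ^ 2 := by
      have h1 : Real.log x ≤ CH.dl x ^ 2 := by
        unfold CH.dl
        rw [← Real.rpow_natCast, ← Real.rpow_mul (by linarith)]
        calc Real.log x = Real.log x ^ (1 : ℝ) := (Real.rpow_one _).symm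
          _ ≤ _ := Real.rpow_le_rpow_of_exponent_le hL1 (by norm_num)
      exact h1.trans (pow_le_pow_left₀ (by linarith) hdl 2)
    have hq0 : 0 ≤ (v : ℝ) ^ (1 / 4 : ℝ) := Real.rpow_nonneg hvpos.le _
    have hq1 : 1 ≤ (v : ℝ) ^ (1 / 4 : ℝ) := Real.one_le_rpow hv1 (by norm_num)
    rw [not_le, max_lt_iff, abs_lt, abs_lt] at hcase
    have hκ' : |κ| ≤ (v : ℝ) ^ (1 / 4 : ℝ) := by
      rw [abs_le]
      constructor <;> linarith [hcase.1.1, hcase.1.2, hcase.2.1, hcase.2.2]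
    have hτ' : |τ| ≤ (v : ℝ) ^ (1 / 4 : ℝ) := by
      rw [abs_le]
      constructor <;> linarith [hcase.1.1, hcase.1.2, hcase.2.1, hcase.2.2]
    have hbd : ‖∑ z ∈ FF v, HC ψ j i κ z * nit τ (nn z)‖ ≤
        (C₁ + C₂) * (d : ℝ) ^ 3 * (1 + |κ| + |τ| * (1 + Real.log v)) * √(v : ℝ) := by
      have hnn : 0 ≤ (d : ℝ) ^ 3 * (1 + |κ| + |τ| * (1 + Real.log v)) * √(v : ℝ) := by positivity
      by_cases hc : (∃ z, Nat.Coprime (nn z) d ∧ ψ z ≠ 1) ∨ j = 1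
      · refine (h₁ d hd ψ hψ j i hj κ τ hc v).trans ?_
        have : 0 ≤ C₂ * ((d : ℝ) ^ 3 * (1 + |κ| + |τ| * (1 + Real.log v)) * √(v : ℝ)) := mul_nonneg hC₂.le hnn
        nlinarith
      · have hj0 : j = 0 := by
          rcases Nat.lt_or_ge j 1 with h | h
          · omega
          · exact absurd (Or.inr (le_antisymm hj h)) hc
        have hone : ∀ z, Nat.Coprime (nn z) d → ψ z = 1 := by
          intro z hz
          by_contra hne
          exact hc (Or.inl ⟨z, hz, hne⟩)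
        subst hj0
        refine (h₂ d hd ψ hψ i κ τ hone hκ0 hU v).trans ?_
        have : 0 ≤ C₁ * ((d : ℝ) ^ 3 * (1 + |κ| + |τ| * (1 + Real.log v)) * √(v : ℝ)) := mul_nonneg hC₁.le hnn
        nlinarith
    refine hbd.trans ?_
    rw [le_div_iff₀ (by positivity)]
    have hd3 : (d : ℝ) ^ 3 ≤ Real.log v ^ (6 * B) := by
      calc (d : ℝ) ^ 3 ≤ (Real.log x ^ B) ^ 3 := pow_le_pow_left₀ (by positivity) hdB 3
        _ ≤ ((Real.log v ^ 2) ^ B) ^ 3 :=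
          pow_le_pow_left₀ (by positivity) (pow_le_pow_left₀ (by linarith) hLdl B) 3
        _ = Real.log v ^ (6 * B) := by
          rw [← pow_mul, ← pow_mul]
          congr 1
          ring
    have hLA : Real.log x ^ A ≤ Real.log v ^ (2 * A) := by
      calc Real.log x ^ A ≤ (Real.log v ^ 2) ^ A := pow_le_pow_left₀ (by linarith) hLdl A
        _ = Real.log v ^ (2 * A) := by rw [← pow_mul]
    have hmid : 1 + |κ| + |τ| * (1 + Real.log v) ≤ (v : ℝ) ^ (1 / 4 : ℝ) * (3 + Real.log v) := by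
      have e1 : |τ| * (1 + Real.log v) ≤ (v : ℝ) ^ (1 / 4 : ℝ) * (1 + Real.log v) :=
        mul_le_mul_of_nonneg_right hτ' (by linarith)
      nlinarith
    have hsq : √(v : ℝ) = (v : ℝ) ^ (1 / 4 : ℝ) * (v : ℝ) ^ (1 / 4 : ℝ) := by
      rw [Real.sqrt_eq_rpow, ← Real.rpow_add hvpos]
      norm_num
    have hv4 : (v : ℝ) ^ (1 / 4 : ℝ) * (v : ℝ) ^ (1 / 4 : ℝ) * (v : ℝ) ^ (1 / 4 : ℝ) * (v : ℝ) ^ (1 / 4 : ℝ) = v := by
      rw [← Real.rpow_add hvpos, ← Real.rpow_add hvpos, ← Real.rpow_add hvpos]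
      norm_num
    have hb := hbig v hvv₀
    have hmid0 : 0 ≤ 1 + |κ| + |τ| * (1 + Real.log v) := by positivity
    calc (C₁ + C₂) * (d : ℝ) ^ 3 * (1 + |κ| + |τ| * (1 + Real.log v)) * √(v : ℝ) * Real.log x ^ A
        ≤ (C₁ + C₂) * Real.log v ^ (6 * B) * ((v : ℝ) ^ (1 / 4 : ℝ) * (3 + Real.log v)) * √(v : ℝ) *
            Real.log v ^ (2 * A) := by
          gcongr
      _ = ((C₁ + C₂) * Real.log v ^ (6 * B + 2 * A) * (3 + Real.log v)) *
            ((v : ℝ) ^ (1 / 4 : ℝ) * (v : ℝ) ^ (1 / 4 : ℝ) * (v : ℝ) ^ (1 / 4 : ℝ)) := by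
          rw [hsq, pow_add]
          ring
      _ ≤ (v : ℝ) ^ (1 / 4 : ℝ) * ((v : ℝ) ^ (1 / 4 : ℝ) * (v : ℝ) ^ (1 / 4 : ℝ) * (v : ℝ) ^ (1 / 4 : ℝ)) :=
          mul_le_mul_of_nonneg_right hb (by positivity)
      _ = v := by linear_combination hv4

end Pool.Agent.BP
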